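import Pool.Agent.Work.MP_ce2d68_du.Interface
import Pool.Agent.Work.MP_ce2d68_st_helper23.ETP

/-!
# Block EXP: the existence theorem for discs
-/

set_option autoImplicit false

open Polynomial Filter Topology
open scoped ComplexConjugate

namespace Pool.Agent.Work.MP_ce2d68_du.h46

open Pool.Agent.Work.MP_ce2d68_st Pool.Agent.Work.MP_ce2d68_st.helper23.ETP

lemma pc_eq {t : ℝ} (ht : 0 < t) (a z : ℂ) : pc a 0 (t : ℂ) z = max ‖z - a‖ t := by
  unfold pc
  rw [zero_mul, zero_add, Complex.norm_real, Real.norm_eq_abs, abs_of_pos ht]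

lemma TP_eq {t : ℝ} (ht : 0 < t) (G : Finset ℂ) (n : ℂ → ℕ) (z : ℂ) :
    TP G (fun a => a) (fun _ => 0) (fun _ => (t : ℂ)) n z = Tn G t n z := by
  unfold TP Tn
  exact Finset.prod_congr rfl fun a _ => by rw [pc_eq ht]

lemma TO_eq (b R : ℝ) (m : ℕ) (z : ℂ) :
    TO {0} (fun _ => b) (fun _ => R) (fun _ => m) z = (max ‖z - (b : ℂ)‖ R) ^ m := by
  unfold TO
  rw [Finset.prod_singleton]

lemma Lt_sum {t : ℝ} (ht : 0 < t) (G : Finset ℂ) (n : ℂ → ℕ) (P : ℤ[X]) (D : ℕ)
    (hD : ∑ a ∈ G, n a = D) :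
    ∑ a ∈ G, n a * Lt t P a = D * llc P + ∑ x ∈ rts P, Real.log (Tn G t n x) := by
  have h1 : ∀ x : ℂ, Real.log (Tn G t n x) = ∑ a ∈ G, n a * Real.log (max ‖x - a‖ t) := by
    intro x
    unfold Tn
    rw [Real.log_prod fun a _ => (pow_pos (lt_max_of_lt_right ht) _).ne']
    exact Finset.sum_congr rfl fun a _ => Real.log_pow _ _
  simp only [h1, Lt]
  rw [Finset.sum_comm, ← hD]
  push_cast
  rw [Finset.sum_mul, ← Finset.sum_add_distrib]
  refine Finset.sum_congr rfl fun a _ => ?_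
  rw [mul_add, Finset.mul_sum]

theorem p_EXP (hB : Stmt_NBAS) (hX : Stmt_EXT) (hA : Stmt_ACHV) : Stmt_EXP := by
  classical
  intro θ G n t b R rK D m Ls lam A om hθ hθ' ht hG hD hD1 hKG hR hKb hIP hsd hlam0 hA0 hlam hom
    hA1 hAl
  set S : ℂ → ℂ := fun a => a with hS
  set bb : ℂ → ℂ := fun _ => 0 with hbb
  set cc : ℂ → ℂ := fun _ => (t : ℂ) with hcc
  set q : ℕ → ℝ := fun _ => b with hq
  set Rf : ℕ → ℝ := fun _ => R with hRf
  set mf : ℕ → ℕ := fun _ => m with hmf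
  have hTn : ∀ z, TP G S bb cc n z = Tn G t n z := TP_eq ht G n
  have hTO : ∀ z, TO {0} q Rf mf z = (max ‖z - (b : ℂ)‖ R) ^ m := TO_eq b R m
  have hpos : ∀ i ∈ G, ∀ z, 0 < pc (S i) (bb i) (cc i) z := fun i _ z => by
    show 0 < pc i 0 (t : ℂ) z
    rw [pc_eq ht]
    exact lt_max_of_lt_right ht
  have hRpos : ∀ j ∈ ({0} : Finset ℕ), ∀ z : ℂ, 0 < max ‖z - q j‖ (Rf j) := fun j _ z =>
    lt_max_of_lt_right (by show (0 : ℝ) < R; linarith)
  have hR10 : ∀ j ∈ ({0} : Finset ℕ), 10 ≤ Rf j := fun j _ => hR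
  have hτ : ∀ i ∈ G, (starRingEnd ℂ) i ∈ G ∧ (starRingEnd ℂ) ((starRingEnd ℂ) i) = i ∧
      S ((starRingEnd ℂ) i) = conj (S i) ∧ bb ((starRingEnd ℂ) i) = conj (bb i) ∧
      cc ((starRingEnd ℂ) i) = conj (cc i) ∧ n ((starRingEnd ℂ) i) = n i := fun i hi =>
    ⟨(hG i hi).1, Complex.conj_conj i, rfl, (map_zero _).symm, (Complex.conj_ofReal t).symm,
      (hG i hi).2⟩
  have hτ' : ∀ i ∈ G, (starRingEnd ℂ) i ∈ G ∧ (starRingEnd ℂ) ((starRingEnd ℂ) i) = i ∧
      S ((starRingEnd ℂ) i) = conj (S i) := fun i hi =>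
    ⟨(hτ i hi).1, (hτ i hi).2.1, (hτ i hi).2.2.1⟩
  have hTPpos : ∀ z, 0 < TP G S bb cc n z := fun z =>
    Finset.prod_pos fun i hi => pow_pos (hpos i hi z) _
  have hTOpos : ∀ z, 0 < TO {0} q Rf mf z := fun z =>
    Finset.prod_pos fun i hi => pow_pos (hRpos i hi z) _
  -- the compact set
  set K : Set ℂ := (⋃ a ∈ G, Metric.closedBall a t) ∪ Metric.closedBall (b : ℂ) R with hKdef
  have hKmem : ∀ z, z ∈ K ↔ (∃ a ∈ G, ‖z - a‖ ≤ t) ∨ ‖z - (b : ℂ)‖ ≤ R := by
    intro z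
    simp only [hKdef, Set.mem_union, Set.mem_iUnion, Metric.mem_closedBall, exists_prop,
      dist_eq_norm]
  have hK : IsCompact K := by
    refine IsCompact.union ?_ (isCompact_closedBall _ _)
    exact G.isCompact_biUnion fun a _ => isCompact_closedBall _ _
  have hKθ : ∀ z ∈ K, |z.arg| ≤ θ ∧ ‖z‖ ≤ rK := by
    intro z hz
    rcases (hKmem z).1 hz with ⟨a, ha, h⟩ | h
    · exact hKG a ha z h
    · exact hKb z h
  have hKc : ∀ z ∈ K, conj z ∈ K := by
    intro z hz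
    rw [hKmem]
    rcases (hKmem z).1 hz with ⟨a, ha, h⟩ | h
    · left
      refine ⟨conj a, (hG a ha).1, ?_⟩
      rw [← map_sub, RCLike.norm_conj]
      exact h
    · right
      rw [norm_conj_sub_real]
      exact h
  have hdeg : ∀ N l : ℕ, (GG G {0} S q (fun i => N * n i) (fun _ => l) 0).natDegree =
      N * D + l := by
    intro N l
    rw [GG_natDegree, ← Finset.mul_sum, hD, Finset.sum_singleton, add_zero]
  have hdeg1 : (GG G {0} S q n mf 0).natDegree = D + m := by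
    rw [GG_natDegree, hD, Finset.sum_singleton, add_zero]
  have hdeg0 : (GG G {0} S q n (fun _ => 0) 0).natDegree = D := by
    rw [GG_natDegree, hD, Finset.sum_singleton, add_zero, add_zero]
  have hnorm : ∀ (nn : ℂ → ℕ) (l : ℕ) (z : ℂ), ‖(GG G {0} S q nn (fun _ => l) 0).eval z‖ =
      (∏ i ∈ G, ‖z - i‖ ^ nn i) * ‖z - (b : ℂ)‖ ^ l := by
    intro nn l z
    rw [GG_norm, Finset.prod_singleton, pow_zero, mul_one]
  have hreal : ∀ (nn : ℂ → ℕ) (l : ℕ), (∀ i ∈ G, nn (conj i) = nn i) →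
      RealP (GG G {0} S q nn (fun _ => l) 0) := fun nn l h =>
    GG_real G {0} S q (starRingEnd ℂ) hτ' nn h (fun _ => l) 0
  have a1 : ∀ z : ℂ, ∏ i ∈ G, ‖z - i‖ ^ n i ≤ TP G S bb cc n z := fun z =>
    Finset.prod_le_prod (fun i _ => by positivity) fun i _ =>
      pow_le_pow_left₀ (norm_nonneg _) (le_max_left _ _) _
  have main := hX K Ls D m (TP G S bb cc n) (TO {0} q Rf mf)
    (GG G {0} S q n (fun _ => 0) 0) (GG G {0} S q n mf 0) lam A om hK hKc hIP hsd hD1
    (by rw [← hD]; exact TP_blk G S bb cc n hpos)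
    (TP_sym G S bb cc n (starRingEnd ℂ) hτ) (TO_cont {0} q Rf mf) hTOpos (TO_sym {0} q Rf mf)
    hlam0 hA0
    (fun z hz => by rw [hTn]; exact hlam z (hKθ z hz).2)
    (fun z hz => by rw [hTO]; exact hom z (hKθ z hz).2)
    (fun P hP => by
      have h1 := hA1 P hP
      rw [Lt_sum ht G n P D hD] at h1
      have h2 : ∑ a ∈ rts P, Real.log (TP G S bb cc n a) = ∑ a ∈ rts P, Real.log (Tn G t n a) :=
        Finset.sum_congr rfl fun a _ => by rw [hTn]
      rw [h2]
      exact h1)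
    hAl (GG_monic _ _ _ _ _ _ _) (hreal n 0 fun i hi => (hG i hi).2) hdeg0
    (fun z _ => by
      rw [hnorm, pow_zero, mul_one]
      exact a1 z)
    (GG_monic _ _ _ _ _ _ _) hdeg1 (hreal n m fun i hi => (hG i hi).2)
    (fun z _ => by
      rw [hmf, hnorm]
      refine mul_le_mul (a1 z) ?_ (by positivity) (hTPpos z).le
      have h3 := hTO z
      rw [hmf] at h3
      rw [h3]
      exact pow_le_pow_left₀ (norm_nonneg _) (le_max_left _ _) _)
    (fun z hz => by
      rw [hKmem] at hz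
      push Not at hz
      obtain ⟨z1, z2⟩ := hz
      have h3 := hTO z
      rw [hmf] at h3
      rw [hmf, hnorm, h3, hTn, Tn, max_eq_left z2.le]
      congr 1
      exact Finset.prod_congr rfl fun i hi => by rw [max_eq_left (z1 i hi).le])
    (fun N _ i hi => by
      rw [Finset.mem_Icc] at hi
      refine ⟨GG G {0} S q (fun i => N * n i) (fun _ => N * m - i) 0, GG_monic _ _ _ _ _ _ _,
        hreal _ _ (fun i hi => by
          show N * n (conj i) = N * n i
          rw [(hG i hi).2]), ?_, ?_⟩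
      · rw [hdeg, mul_add]
        omega
      · intro z _
        rw [hnorm]
        have b1 : ∏ j ∈ G, ‖z - j‖ ^ (N * n j) ≤ (TP G S bb cc n z) ^ N := by
          have h4 : ∏ j ∈ G, ‖z - j‖ ^ (N * n j) = (∏ j ∈ G, ‖z - j‖ ^ n j) ^ N := by
            rw [← Finset.prod_pow]
            exact Finset.prod_congr rfl fun j _ => by rw [← pow_mul, mul_comm]
          rw [h4]
          exact pow_le_pow_left₀ (Finset.prod_nonneg fun i _ => by positivity) (a1 z) _
        have b2 : ‖z - (b : ℂ)‖ ^ (N * m - i) ≤ (1 / 10 : ℝ) ^ i * (TO {0} q Rf mf z) ^ N := by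
          rw [hTO]
          have h10 : 10 ≤ max ‖z - (b : ℂ)‖ R := hR.trans (le_max_right _ _)
          have e3 : (max ‖z - (b : ℂ)‖ R ^ m) ^ N
              = (max ‖z - (b : ℂ)‖ R) ^ i * (max ‖z - (b : ℂ)‖ R) ^ (N * m - i) := by
            rw [← pow_mul, ← pow_add]
            congr 1
            have e4 : m * N = N * m := mul_comm _ _
            omega
          rw [e3, ← mul_assoc, ← mul_pow]
          have h1 : (1 : ℝ) ≤ (1 / 10 * max ‖z - (b : ℂ)‖ R) ^ i :=
            one_le_pow₀ (by linarith)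
          have h2 : ‖z - (b : ℂ)‖ ^ (N * m - i) ≤ (max ‖z - (b : ℂ)‖ R) ^ (N * m - i) :=
            pow_le_pow_left₀ (norm_nonneg _) (le_max_left _ _) _
          have h3 : 0 ≤ (max ‖z - (b : ℂ)‖ R) ^ (N * m - i) := le_trans (by positivity) h2
          nlinarith
        have p1 : 0 ≤ (TP G S bb cc n z) ^ N := pow_nonneg (hTPpos z).le _
        calc _ ≤ (TP G S bb cc n z) ^ N * ((1 / 10 : ℝ) ^ i * (TO {0} q Rf mf z) ^ N) :=
              mul_le_mul b1 b2 (by positivity) p1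
          _ = _ := by rw [mul_pow]; ring)
  have hT : Continuous fun z : ℂ => TP G S bb cc n z * TO {0} q Rf mf z :=
    (TP_cont G S bb cc n).mul (TO_cont {0} q Rf mf)
  have hach := hA θ (D + m) (fun z => TP G S bb cc n z * TO {0} q Rf mf z) (by omega) hT
    (fun z => mul_pos (hTPpos z) (hTOpos z)) (by
      intro N₀
      obtain ⟨N, hN, F, h1, h2, h3, h4, h5, h6⟩ := main N₀
      exact ⟨N, hN, F, h1, h2, h3, h4, fun z hz => (hKθ z (h5 z hz)).1, h6⟩)
  have hca := ca_log G {0} S bb cc q Rf n mf 0 1 one_pos hpos hR10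
  simp only [pow_zero, mul_one, Nat.cast_zero, zero_mul, add_zero, Finset.sum_singleton] at hca
  rw [hca] at hach
  refine ach_mono hach (le_of_eq ?_)
  congr 2
  refine Finset.sum_congr rfl fun a _ => ?_
  congr 2
  funext z
  show Real.log (pc a 0 (t : ℂ) z) = _
  rw [pc_eq ht]

end Pool.Agent.Work.MP_ce2d68_du.h46
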